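import Pool.Agent.Helper31.EC.RobS
import Pool.Agent.Helper31.EC.Ring

/-! Exact entropy calculus: restriction of tame functions to events, decomposition of a failing closeness into
events on which a function has a given size. -/

namespace Pool.Agent.Helper25.EC

open Finset Filter Topology Pool.Agent.Helper69.RK Pool.Agent.Helper31.EC Pool.Agent.Helper31.EC.Sp

noncomputable section

variable {W : Sp}

/-- a tame function on the restricted space -/
def rst (E : ∀ k, (W.F k).Ω → Prop) (f : TR W) : TR (W.rest E) :=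
  ⟨fun k ω => f.1 k ω, by
    obtain ⟨K, hK, h⟩ := f.2
    refine ⟨K, hK, ?_⟩
    filter_upwards [h] with k hk ω hω
    exact hk ω ((W.F k).rest_supp (E k) ω hω).1⟩

theorem ev_rst (E : ∀ k, (W.F k).Ω → Prop) (f : TR W) (k : ℕ) (ω : (W.F k).Ω) :
    TR.ev (rst E f) k ω = TR.ev f k ω := rfl

theorem rst_dg (E : ∀ k, (W.F k).Ω → Prop) (hE : 0 < ul (W.pr E)) (f : TR W) (r : ℝ) :
    TR.dg (rst E f) r = restL E hE (TR.dg f r) :=
  VV.rest_dg E hE (TR.vec (fun _ : Fin 1 => f)) r

/-- an event of positive probability holds on the support of the restricted space -/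
theorem rest_mem (E : ∀ k, (W.F k).Ω → Prop) (hE : 0 < ul (W.pr E)) :
    ∀ᶠ k in UF, ∀ ω, ((W.rest E).F k).μ ω ≠ 0 → (W.F k).μ ω ≠ 0 ∧ E k ω := by
  have h1 := eventually_gt_of_lt_ul (UB_pr E) hE
  filter_upwards [h1] with k hk ω hω
  have h2 := (W.F k).rest_supp (E k) ω hω
  refine ⟨h2.1, h2.2 ?_⟩
  have h3 : 0 < (W.F k).pb (E k) := hk
  exact h3.ne'

/-- typical events stay typical on events of positive probability -/
theorem typ_rest (E : ∀ k, (W.F k).Ω → Prop) (hE : 0 < ul (W.pr E)) {A : ∀ k, (W.F k).Ω → Prop} (hA : Typ A) :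
    Typ (S := W.rest E) A := by
  rw [Typ] at hA ⊢
  have h1 : ∀ᶠ k in UF, mass (res ((W.rest E).F k).μ (fun ω => ¬ A k ω)) ≤
      (2 / ul (W.pr E)) * mass (res (W.F k).μ (fun ω => ¬ A k ω)) := by
    have h2 := eventually_gt_of_lt_ul (UB_pr E) (show ul (W.pr E) / 2 < ul (W.pr E) by linarith)
    filter_upwards [h2] with k hk
    have h3 : 0 < (W.F k).pb (E k) := lt_trans (by linarith) hk
    have h4 : ((W.rest E).F k).μ = fun ω => ((W.F k).pb (E k))⁻¹ * res (W.F k).μ (E k) ω :=
      (W.F k).restμ_eq (E k) h3.ne'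
    have h5 : ∀ ω : (W.F k).Ω, res ((W.rest E).F k).μ (fun ω => ¬ A k ω) ω ≤
        (2 / ul (W.pr E)) * res (W.F k).μ (fun ω => ¬ A k ω) ω := by
      intro ω
      by_cases hω : A k ω
      · rw [res_neg ((W.rest E).F k).μ (fun ω => ¬ A k ω) ω (fun hc => hc hω),
          res_neg (W.F k).μ (fun ω => ¬ A k ω) ω (fun hc => hc hω)]
        simp
      · rw [res_pos ((W.rest E).F k).μ (fun ω => ¬ A k ω) ω hω, res_pos (W.F k).μ (fun ω => ¬ A k ω) ω hω, h4]
        have h6 : res (W.F k).μ (E k) ω ≤ (W.F k).μ ω := by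
          by_cases hω' : E k ω
          · rw [res_pos _ _ _ hω']
          · rw [res_neg _ _ _ hω']
            exact (W.F k).nn ω
        have h7 : ((W.F k).pb (E k))⁻¹ ≤ 2 / ul (W.pr E) := by
          rw [inv_eq_one_div, div_le_div_iff₀ h3 hE]
          have : ul (W.pr E) / 2 < (W.F k).pb (E k) := hk
          linarith
        exact mul_le_mul h7 h6 ((W.F k).res_nonneg (E k) ω) (by positivity)
    unfold mass
    rw [Finset.mul_sum]
    exact Finset.sum_le_sum fun ω _ => h5 ω
  have h2 := hA.const_mul (2 / ul (W.pr E))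
  rw [mul_zero] at h2
  exact tendsto_of_tendsto_of_tendsto_of_le_of_le' tendsto_const_nhds h2
    (Eventually.of_forall fun k => mass_res_nonneg (S := W.rest E) k _) h1

/-- agreement up to level `r` passes to events of positive probability -/
theorem ag_rst (E : ∀ k, (W.F k).Ω → Prop) (hE : 0 < ul (W.pr E)) {r : ℝ} {f g : TR W} (h : TR.Ag r f g) :
    TR.Ag r (rst E f) (rst E g) := by
  obtain ⟨A, K, hA, hK, hh⟩ := h
  refine ⟨A, K, typ_rest E hE hA, hK, ?_⟩
  filter_upwards [hh] with k hk ω a b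
  exact hk ω ((W.F k).rest_supp (E k) ω a).1 b

/-- finite intersections of typical events -/
theorem typ_all {A : ℕ → ∀ k, (W.F k).Ω → Prop} (N : ℕ) (hA : ∀ j < N, Typ (A j)) :
    Typ (fun k ω => ∀ j < N, A j k ω) := by
  induction N with
  | zero =>
    refine Typ_true.mono (Eventually.of_forall fun k ω _ _ j hj => ?_)
    exact absurd hj (Nat.not_lt_zero j)
  | succ N ih =>
    have h1 := (ih fun j hj => hA j (by omega)).and (hA N (Nat.lt_succ_self N))
    refine h1.mono (Eventually.of_forall fun k ω _ h j hj => ?_)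
    rcases Nat.lt_succ_iff_lt_or_eq.mp hj with h2 | h2
    · exact h.1 j h2
    · rw [h2]; exact h.2

/-- an event which does not have positive probability has a typical complement -/
theorem typ_not {E : ∀ k, (W.F k).Ω → Prop} (h : ¬ 0 < ul (W.pr E)) : Typ (fun k ω => ¬ E k ω) := by
  rcases typ_or (fun k ω => ¬ E k ω) with h1 | h1
  · exact h1
  · exfalso
    apply h
    have h2 : (fun k ω => ¬ ¬ E k ω) = E := by
      funext k ω
      exact propext not_not
    rwa [h2] at h1

/-- if a tame function is not of size `2 ^ (-s n)` typically then it is of size `2 ^ (-v n)`, up to `2 ^ (ε n)`, on an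
event of positive probability, for some `v ≤ s` -/
theorem bin (f : TR W) (s ε : ℝ) (hs : 0 ≤ s) (hε : 0 < ε) (hf : ¬ Typ (fun k ω => |TR.ev f k ω| ≤ W.dl s k)) :
    ∃ (v : ℝ) (K : ℕ → ℝ), 0 ≤ v ∧ v ≤ s ∧ W.Sub K ∧
      0 < ul (W.pr (fun k ω => W.dl (v + ε) k < |TR.ev f k ω| ∧ |TR.ev f k ω| ≤ K k * W.dl v k)) := by
  obtain ⟨K, hK, hfK⟩ := f.2
  by_contra hc
  push Not at hc
  apply hf
  have hK1 : W.Sub (fun k => K k + 1) := hK.add (W.Sub_const zero_le_one)
  obtain ⟨N, hN⟩ := exists_nat_ge (s / ε)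
  have hNs : s ≤ N * ε := by rwa [div_le_iff₀ hε] at hN
  set B : ℕ → ∀ k, (W.F k).Ω → Prop := fun j k ω => (j : ℝ) * ε ≤ s →
    ¬ (W.dl ((j : ℝ) * ε + ε) k < |TR.ev f k ω| ∧ |TR.ev f k ω| ≤ (K k + 1) * W.dl ((j : ℝ) * ε) k) with hB
  have hBt : ∀ j, Typ (B j) := by
    intro j
    by_cases hj : (j : ℝ) * ε ≤ s
    · have h1 := typ_not (not_lt.mpr (hc ((j : ℝ) * ε) (fun k => K k + 1) (by positivity) hj hK1))
      exact h1.mono (Eventually.of_forall fun k ω _ h _ => h)
    · exact Typ_true.mono (Eventually.of_forall fun k ω _ _ hj' => absurd hj' hj)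
  have h1 := typ_all (N + 1) fun j _ => hBt j
  refine h1.mono ?_
  filter_upwards [hfK, hK.1] with k hk hK0 ω hω h
  by_contra hcc
  push Not at hcc
  have hex : ∃ j : ℕ, W.dl ((j : ℝ) * ε + ε) k < |TR.ev f k ω| := by
    refine ⟨N, lt_of_le_of_lt (W.dl_anti ?_ k) hcc⟩
    linarith
  classical
  have hj1 := Nat.find_spec hex
  set j := Nat.find hex with hjdef
  have hjN : j ≤ N := Nat.find_min' hex (lt_of_le_of_lt (W.dl_anti (by linarith) k) hcc)
  rcases Nat.eq_zero_or_pos j with hj0 | hjpos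
  · have h2 := h 0 (Nat.succ_pos N) (by simpa using hs)
    apply h2
    rw [hj0] at hj1
    refine ⟨hj1, ?_⟩
    have h3 : |TR.ev f k ω| ≤ K k := hk ω hω
    rw [Nat.cast_zero, zero_mul, dl_zero, mul_one]
    linarith
  · obtain ⟨i, hi⟩ := Nat.exists_eq_succ_of_ne_zero hjpos.ne'
    have hmin : ¬ W.dl ((i : ℝ) * ε + ε) k < |TR.ev f k ω| := Nat.find_min hex (by omega)
    have h6 : ((i : ℝ) * ε + ε) = (j : ℝ) * ε := by rw [hi]; push_cast; ring
    rw [h6] at hmin
    have h7 : |TR.ev f k ω| ≤ W.dl ((j : ℝ) * ε) k := not_lt.mp hmin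
    have h8 : (j : ℝ) * ε ≤ s := by
      by_contra h9
      push Not at h9
      have h10 := W.dl_anti h9.le k
      linarith
    have h2 := h j (by omega) h8
    apply h2
    refine ⟨hj1, ?_⟩
    have h9 := W.dl_pos ((j : ℝ) * ε) k
    nlinarith

end

end Pool.Agent.Helper25.EC
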