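import Pool.Agent.Helper25.EC.Rst
import Pool.Agent.Helper31.EC.Copies

/-! Exact entropy calculus: the agreement principle. If two copies over `V` agree with probability `≥ 1 - d` then on an
event of probability `≥ 1 - d` the digits are exactly a function of `V`. -/

namespace Pool.Agent.Helper25.EC

open Finset Filter Topology Pool.Agent.Helper69.RK Pool.Agent.Helper31.EC Pool.Agent.Helper31.EC.Sp

noncomputable section

open Classical in
/-- a weighted average is at least the smallest value -/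
theorem exists_le_avg {Ω : Type} (s : Finset Ω) (w q : Ω → ℝ) (hw : ∀ x ∈ s, 0 ≤ w x) (hs : 0 < ∑ x ∈ s, w x) :
    ∃ x ∈ s, w x ≠ 0 ∧ (∑ y ∈ s, w y) * q x ≤ ∑ y ∈ s, w y * q y := by
  by_contra hc
  push Not at hc
  obtain ⟨x0, hx0, hwx0⟩ : ∃ x ∈ s, 0 < w x := by
    by_contra h1
    push Not at h1
    have : ∑ x ∈ s, w x ≤ 0 := Finset.sum_nonpos h1
    linarith
  -- the minimum over the support
  obtain ⟨x1, hx1, hmin⟩ := Finset.exists_min_image (s.filter fun x => w x ≠ 0) q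
    ⟨x0, Finset.mem_filter.mpr ⟨hx0, hwx0.ne'⟩⟩
  rw [Finset.mem_filter] at hx1
  have h1 := hc x1 hx1.1 hx1.2
  have h2 : ∑ y ∈ s, w y * q x1 ≤ ∑ y ∈ s, w y * q y := by
    apply Finset.sum_le_sum
    intro y hy
    by_cases hwy : w y = 0
    · rw [hwy, zero_mul, zero_mul]
    · exact mul_le_mul_of_nonneg_left (hmin y (Finset.mem_filter.mpr ⟨hy, hwy⟩)) (hw y hy)
  rw [← Finset.sum_mul] at h2
  linarith

open Classical in
/-- the mass of a relation in the amalgam, fibre by fibre -/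
theorem amw_mass {Ω α : Type} [Fintype Ω] (μ : Ω → ℝ) (f : Ω → α) (R : Ω → Ω → Prop) :
    ∑ w : Ω × Ω, e1_ind (R w.1 w.2) * amw μ μ f f w =
      ∑ a ∈ Finset.univ.image f, (ms μ f a)⁻¹ * ∑ y ∈ Finset.univ.filter (fun y => f y = a),
        μ y * ∑ x ∈ Finset.univ.filter (fun x => f x = a), e1_ind (R x y) * μ x := by
  rw [Fintype.sum_prod_type_right]
  rw [← Finset.sum_fiberwise_of_maps_to (s := Finset.univ) (t := Finset.univ.image f) (g := f)
    (fun y _ => Finset.mem_image_of_mem f (Finset.mem_univ y))]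
  apply Finset.sum_congr rfl
  intro a _
  rw [Finset.mul_sum]
  apply Finset.sum_congr rfl
  intro y hy
  rw [Finset.mem_filter] at hy
  rw [Finset.sum_filter]
  rw [Finset.mul_sum, Finset.mul_sum]
  apply Finset.sum_congr rfl
  intro x _
  unfold amw
  show e1_ind (R x y) * (e1_ind (f x = f y) * (μ x * μ y / ms μ f (f x))) = _
  by_cases hx : f x = a
  · rw [if_pos hx, e1_ind_pos (show f x = f y by rw [hx, hy.2]), hx]
    ring
  · rw [if_neg hx, e1_ind_neg (show ¬ f x = f y by rw [hy.2]; exact hx)]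
    ring

open Classical in
/-- CHOICE OF A REPRESENTATIVE IN EVERY FIBRE: the mass of the points which are not related to the representative
of their fibre is at most the mass of the pairs in the amalgam which are not related -/
theorem amw_choice {Ω α : Type} [Fintype Ω] (μ : Ω → ℝ) (h0 : ∀ ω, 0 ≤ μ ω) (f : Ω → α) (R : Ω → Ω → Prop) :
    ∃ c : Ω → Ω, (∀ x, f (c x) = f x) ∧ (∀ x y, f x = f y → c x = c y) ∧
      ∑ x, e1_ind (R x (c x)) * μ x ≤ ∑ w : Ω × Ω, e1_ind (R w.1 w.2) * amw μ μ f f w := by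
  set q : α → Ω → ℝ := fun a y => ∑ x ∈ Finset.univ.filter (fun x => f x = a), e1_ind (R x y) * μ x with hq
  have hq0 : ∀ a y, 0 ≤ q a y := fun a y => Finset.sum_nonneg fun x _ => mul_nonneg (ind_nonneg _) (h0 x)
  have hms : ∀ a, ms μ f a = ∑ y ∈ Finset.univ.filter (fun y => f y = a), μ y := by
    intro a
    unfold ms
    rw [Finset.sum_filter]
    apply Finset.sum_congr rfl
    intro x _
    by_cases hx : f x = a
    · rw [if_pos hx, e1_ind_pos hx, one_mul]
    · rw [if_neg hx, e1_ind_neg hx, zero_mul]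
  have key : ∀ a : α, (∃ y, f y = a) → ∃ y, f y = a ∧
      ms μ f a * q a y ≤ ∑ y ∈ Finset.univ.filter (fun y => f y = a), μ y * q a y := by
    rintro a ⟨y0, hy0⟩
    by_cases hm : 0 < ms μ f a
    · rw [hms] at hm
      obtain ⟨y, hy, _, hle⟩ := exists_le_avg _ μ (q a) (fun x _ => h0 x) hm
      rw [Finset.mem_filter] at hy
      refine ⟨y, hy.2, ?_⟩
      rw [hms]
      exact hle
    · refine ⟨y0, hy0, ?_⟩
      have hm0 : ms μ f a = 0 := le_antisymm (not_lt.mp hm) (ms_nonneg μ f h0 a)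
      rw [hm0, zero_mul]
      exact Finset.sum_nonneg fun y _ => mul_nonneg (h0 y) (hq0 a y)
  choose y hy1 hy2 using key
  refine ⟨fun x => y (f x) ⟨x, rfl⟩, fun x => hy1 _ _, ?_, ?_⟩
  · intro x x' hxx
    have : ∀ (a b : α) (ha : ∃ y, f y = a) (hb : ∃ y, f y = b), a = b → y a ha = y b hb := by
      intro a b ha hb hab
      subst hab
      rfl
    exact this _ _ _ _ hxx
  · rw [amw_mass]
    rw [← Finset.sum_fiberwise_of_maps_to (s := Finset.univ) (t := Finset.univ.image f) (g := f)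
      (fun y _ => Finset.mem_image_of_mem f (Finset.mem_univ y))]
    apply Finset.sum_le_sum
    intro a ha
    obtain ⟨x0, _, hx0⟩ := Finset.mem_image.mp ha
    have e1 : ∑ x ∈ Finset.univ.filter (fun x => f x = a), e1_ind (R x (y (f x) ⟨x, rfl⟩)) * μ x =
        q a (y a ⟨x0, hx0⟩) := by
      apply Finset.sum_congr rfl
      intro x hx
      rw [Finset.mem_filter] at hx
      have : ∀ (a b : α) (ha : ∃ y, f y = a) (hb : ∃ y, f y = b), a = b → y a ha = y b hb := by
        intro a b ha hb hab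
        subst hab
        rfl
      rw [this (f x) a ⟨x, rfl⟩ ⟨x0, hx0⟩ hx.2]
    rw [e1]
    by_cases hm : 0 < ms μ f a
    · rw [← div_eq_inv_mul, le_div_iff₀ hm, mul_comm]
      exact hy2 a ⟨x0, hx0⟩
    · have hm0 : ms μ f a = 0 := le_antisymm (not_lt.mp hm) (ms_nonneg μ f h0 a)
      have e2 : q a (y a ⟨x0, hx0⟩) = 0 := by
        apply Finset.sum_eq_zero
        intro x hx
        rw [hms] at hm0
        rw [(Finset.sum_eq_zero_iff_of_nonneg fun x _ => h0 x).mp hm0 x hx, mul_zero]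
      rw [e2, hm0, inv_zero, zero_mul]

theorem mass_res_ind {Ω : Type} [Fintype Ω] (μ : Ω → ℝ) (E : Ω → Prop) :
    mass (res μ E) = ∑ x, e1_ind (E x) * μ x := by
  unfold mass
  apply Finset.sum_congr rfl
  intro x _
  by_cases h : E x
  · rw [res_pos _ _ _ h, e1_ind_pos h, one_mul]
  · rw [res_neg _ _ _ h, e1_ind_neg h, zero_mul]

variable {S : Sp} {α : ℕ → Type} (V : ∀ k, (S.F k).Ω → α k)

/-- two conditionally independent copies over `V` -/
def two : Sp := ((Pj.id S).join V).sp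

/-- the first copy -/
def two1 : Pj (two V) S := ((Pj.id S).join V).p1

/-- the second copy -/
def two2 : Pj (two V) S := ((Pj.id S).join V).p2

/-- representatives: for every relation there is a choice of a point in every fibre of `V` (and of the base) such that
the event that a point is related to its representative has at least the probability of the relation for two copies -/
theorem exists_rep (R : ∀ k, (S.F k).Ω → (S.F k).Ω → Prop) :
    ∃ c : ∀ k, (S.F k).Ω → (S.F k).Ω, (∀ k ω ω', V k ω = V k ω' → (S.F k).Z ω ω' → c k ω = c k ω') ∧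
      ∀ k, (S.F k).pb (fun ω => ¬ R k ω (c k ω)) ≤
        ((two V).F k).pb (fun w => ¬ R k ((two1 V).π k w) ((two2 V).π k w)) := by
  choose c hc1 hc2 hc3 using fun k => amw_choice (S.F k).μ (S.F k).nn
    (fun ω => (V k ω, Quotient.mk (S.F k).Z ω)) (fun ω ω' => ¬ R k ω ω')
  refine ⟨c, fun k ω ω' h hZ => ?_, fun k => ?_⟩
  · apply hc2 k ω ω'
    rw [h, Quotient.sound hZ]
  · have h1 := hc3 k
    unfold FSp.pb
    rw [mass_res_ind, mass_res_ind]
    exact h1

/-- AGREEMENT PRINCIPLE for one information. If two copies of `X` over `V` agree up to `2 ^ (-r n)` with probability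
`≥ 1 - d` then there is an event of probability `≥ 1 - d` on which (and on all subevents of positive probability of
which) the digits of `X` up to level `r` are a function of `V`. -/
theorem agree_one {m : ℕ} (hV : Bdd V) (X : S.VV m) (r : ℝ) (K : ℕ → ℝ) (hK : S.Sub K) :
    ∃ E : ∀ k, (S.F k).Ω → Prop, (∀ k, (S.F k).pb (fun ω => ¬ E k ω) ≤
        ((two V).F k).pb (fun w => ¬ ∀ i, |X.v k ((two1 V).π k w) i - X.v k ((two2 V).π k w) i| ≤ K k * S.dl r k)) ∧
      (Typ E → X.dg r ≤ io V) ∧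
      ∀ (F : ∀ k, (S.F k).Ω → Prop) (hF : 0 < ul (S.pr F)), (∀ k ω, F k ω → E k ω) →
        restL F hF (X.dg r) ≤ restL F hF (io V) := by
  obtain ⟨c, hc, hR⟩ := exists_rep V (fun k ω ω' => ∀ i, |X.v k ω i - X.v k ω' i| ≤ K k * S.dl r k)
  have key : ∀ k ω ω', V k ω = V k ω' → (S.F k).Z ω ω' →
      (∀ i, |X.v k ω i - X.v k (c k ω) i| ≤ K k * S.dl r k) →
      (∀ i, |X.v k ω' i - X.v k (c k ω') i| ≤ K k * S.dl r k) →
      ∀ i, |X.v k ω i - X.v k ω' i| ≤ (K k + K k) * S.dl r k := by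
    intro k ω ω' h hZ h1 h2 i
    have h3 := h1 i
    have h4 := h2 i
    rw [← hc k ω ω' h hZ] at h4
    have h5 : X.v k ω i - X.v k ω' i = (X.v k ω i - X.v k (c k ω) i) - (X.v k ω' i - X.v k (c k ω) i) := by ring
    rw [h5]
    refine (abs_sub _ _).trans ?_
    linarith
  refine ⟨fun k ω => ∀ i, |X.v k ω i - X.v k (c k ω) i| ≤ K k * S.dl r k, hR, ?_, ?_⟩
  · intro hE
    apply X.dg_le_io r hV _ hE _ (hK.add hK)
    exact Eventually.of_forall fun k ω ω' _ _ e e' hZ hVV => key k ω ω' hVV hZ e e'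
  · intro F hF hFE
    rw [← VV.rest_dg F hF, restL_io F hF hV]
    apply (X.rest F).dg_le_io r (show Bdd (S := S.rest F) V from rest_VB F hV) (fun _ _ => True) Typ_true _ (hK.add hK)
    filter_upwards [rest_mem F hF] with k hk ω ω' a b _ _ hZ hVV
    exact key k ω ω' hVV hZ (hFE k ω (hk ω a).2) (hFE k ω' (hk ω' b).2)

/-- if two copies of `X` over `V` agree typically up to `2 ^ (-s n)` for all `s < r` then the digits of `X` up to level
`r` are a function of `V` -/
theorem agree_typ {m : ℕ} (hV : Bdd V) (X : S.VV m) (r : ℝ)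
    (h : ∀ δ : ℝ, 0 < δ → Typ (S := two V) (fun k w => ∀ i, |X.v k ((two1 V).π k w) i - X.v k ((two2 V).π k w) i| ≤
      S.dl (r - δ) k)) : X.dg r ≤ io V := by
  apply X.dg_le_of_lt
  intro δ hδ
  obtain ⟨E, hE, hE1, _⟩ := agree_one V hV X (r - δ) (fun _ => 1) (S.Sub_const zero_le_one)
  apply hE1
  have h1 := h δ hδ
  unfold Typ at h1 ⊢
  refine tendsto_of_tendsto_of_tendsto_of_le_of_le tendsto_const_nhds h1 (fun k => mass_res_nonneg k _) (fun k => ?_)
  have h2 := hE k
  simp only [one_mul] at h2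
  exact h2

/-- AGREEMENT PRINCIPLE for two informations. -/
theorem agree_two {β : ℕ → Type} (V' : ∀ k, (S.F k).Ω → β k) {m : ℕ} (hV : Bdd V) (hV' : Bdd V') (X : S.VV m) (r : ℝ)
    (K : ℕ → ℝ) (hK : S.Sub K) (d d' : ℝ)
    (hd : ∀ᶠ k in UF, ((two V).F k).pb
      (fun w => ¬ ∀ i, |X.v k ((two1 V).π k w) i - X.v k ((two2 V).π k w) i| ≤ K k * S.dl r k) ≤ d)
    (hd' : ∀ᶠ k in UF, ((two V').F k).pb
      (fun w => ¬ ∀ i, |X.v k ((two1 V').π k w) i - X.v k ((two2 V').π k w) i| ≤ K k * S.dl r k) ≤ d') :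
    ∃ E : ∀ k, (S.F k).Ω → Prop, (∀ᶠ k in UF, 1 - (d + d') ≤ S.pr E k) ∧
      ∀ (F : ∀ k, (S.F k).Ω → Prop) (hF : 0 < ul (S.pr F)), (∀ k ω, F k ω → E k ω) →
        restL F hF (X.dg r) ≤ restL F hF (io V) ∧ restL F hF (X.dg r) ≤ restL F hF (io V') := by
  obtain ⟨E, hE, _, hE2⟩ := agree_one V hV X r K hK
  obtain ⟨E', hE', _, hE2'⟩ := agree_one V' hV' X r K hK
  refine ⟨fun k ω => E k ω ∧ E' k ω, ?_, fun F hF hFE => ⟨hE2 F hF fun k ω h => (hFE k ω h).1,
    hE2' F hF fun k ω h => (hFE k ω h).2⟩⟩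
  filter_upwards [hd, hd'] with k a b
  have h1 := (S.F k).pb_add_compl (fun ω => E k ω ∧ E' k ω)
  have h2 : (S.F k).pb (fun ω => ¬ (E k ω ∧ E' k ω)) ≤ (S.F k).pb (fun ω => ¬ E k ω) + (S.F k).pb (fun ω => ¬ E' k ω) := by
    unfold FSp.pb
    rw [mass_res_ind, mass_res_ind, mass_res_ind, ← Finset.sum_add_distrib]
    apply Finset.sum_le_sum
    intro ω _
    have h0 := (S.F k).nn ω
    by_cases c1 : E k ω
    · by_cases c2 : E' k ω
      · rw [e1_ind_neg (show ¬ ¬ (E k ω ∧ E' k ω) from fun hc => hc ⟨c1, c2⟩), e1_ind_neg (show ¬ ¬ E k ω from fun hc => hc c1),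
          e1_ind_neg (show ¬ ¬ E' k ω from fun hc => hc c2)]
        linarith
      · rw [e1_ind_pos (show ¬ (E k ω ∧ E' k ω) from fun hc => c2 hc.2), e1_ind_neg (show ¬ ¬ E k ω from fun hc => hc c1),
          e1_ind_pos c2]
        linarith
    · have h3 := ind_nonneg (¬ E' k ω)
      rw [e1_ind_pos (show ¬ (E k ω ∧ E' k ω) from fun hc => c1 hc.1), e1_ind_pos c1]
      nlinarith
  have h3 := (hE k).trans a
  have h4 := (hE' k).trans b
  show 1 - (d + d') ≤ (S.F k).pb (fun ω => E k ω ∧ E' k ω)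
  linarith

end

end Pool.Agent.Helper25.EC
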