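import Pool.Agent.Helper25.EC.Rst
import Pool.Agent.Helper31.EC.Quo

/-! Exact entropy calculus: the one-dimensional lemma in agreement form. Two lines `z = β + α t` and `z' = β' + α' t'`
over the same height and through the same point, conditionally independent given the height and the point, in a
system in which `z` is robustly unsaturated, agree. -/

namespace Pool.Agent.Helper25.EC

open Finset Filter Topology Pool.Agent.Helper69.RK Pool.Agent.Helper31.EC Pool.Agent.Helper31.EC.Sp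

noncomputable section

/-- the entropy part -/
theorem m1_abs {L : Type*} [PM L] (l l' T Z lv Zv Tw : L) (r c : ℝ)
    (hT : H T ≤ r) (hTl : h T l = r) (hTl' : h T l' = r)
    (hI : I l l' (T ⊔ Z) = 0) (hZl : Z ≤ l ⊔ T) (hZl' : Z ≤ l' ⊔ T) (hvl : lv ≤ l) (hvl' : lv ≤ l')
    (hZv : Zv ≤ lv ⊔ T) (hTw : Tw ≤ l ⊔ l') (hTw' : h T Tw ≤ c) :
    r ≤ h Z T - h Zv T + c := by
  -- lower bound
  have e1 : h (l ⊔ l') (T ⊔ Z) = h l (T ⊔ Z) + h l' (T ⊔ Z) := by
    have h1 := hI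
    rw [I_eq'] at h1
    rw [h_chain]
    linarith
  have e2 : H (l ⊔ l' ⊔ (T ⊔ Z)) = h (l ⊔ l') (T ⊔ Z) + H (T ⊔ Z) := by unfold h; ring
  have e3 : H (l ⊔ (T ⊔ Z)) = h l (T ⊔ Z) + H (T ⊔ Z) := by unfold h; ring
  have e4 : H (l' ⊔ (T ⊔ Z)) = h l' (T ⊔ Z) + H (T ⊔ Z) := by unfold h; ring
  have s1 : l ⊔ (T ⊔ Z) = l ⊔ T := by
    rw [← sup_assoc]; exact sup_eq_left.mpr hZl
  have s2 : l' ⊔ (T ⊔ Z) = l' ⊔ T := by
    rw [← sup_assoc]; exact sup_eq_left.mpr hZl'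
  have s3 : l ⊔ l' ⊔ (T ⊔ Z) = l ⊔ l' ⊔ T := by
    rw [sup_assoc l, s2, ← sup_assoc]
  have f1 : H (l ⊔ T) = H l + r := by rw [H_chain, hTl]
  have f2 : H (l' ⊔ T) = H l' + r := by rw [H_chain, hTl']
  have f3 : H (T ⊔ Z) = H T + h Z T := H_chain T Z
  have g1 : H (l ⊔ l' ⊔ T) = H l + H l' + 2 * r - H T - h Z T := by
    rw [s1] at e3; rw [s2] at e4; rw [s3] at e2
    linarith
  -- upper bound
  have u1 : H (l ⊔ l' ⊔ T) = H (l ⊔ l') + h T (l ⊔ l') := H_chain _ _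
  have u2 : h T (l ⊔ l') ≤ c := (h_anti hTw).trans hTw'
  have u3 : H (l ⊔ l') = H l + h l' l := H_chain _ _
  have u4 : h l' l ≤ H l' - H lv := by
    have a1 := h_anti (A := l') hvl
    have a2 : H (lv ⊔ l') = H lv + h l' lv := H_chain _ _
    rw [sup_eq_right.mpr hvl'] at a2
    linarith
  have u5 : h Zv T ≤ H lv := by
    have a1 : h Zv T ≤ h (lv ⊔ T) T := h_mono hZv
    rw [h_sup_right_of_le le_rfl] at a1
    exact a1.trans (h_le_H _ _)
  linarith

variable {W : Sp}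

/-- the digits of a finite family of tame functions -/
theorem vec4 (a b c d : TR W) (r : ℝ) : (TR.vec ![a, b, c, d]).dg r = (TR.dg a r ⊔ TR.dg b r) ⊔ (TR.dg c r ⊔ TR.dg d r) := by
  apply le_antisymm
  · rw [TR.vec_dg_le_iff]
    intro i
    fin_cases i
    · exact le_sup_left.trans le_sup_left
    · exact le_sup_right.trans le_sup_left
    · exact le_sup_left.trans le_sup_right
    · exact le_sup_right.trans le_sup_right
  · have h1 := fun i => TR.cor_dg_le (TR.vec ![a, b, c, d]) i r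
    exact sup_le (sup_le (h1 0) (h1 1)) (sup_le (h1 2) (h1 3))

/-- if `t D + N` is small where `D` and `N` are known to level `r` and `|D| ≥ 2 ^ (-w n)` then `t` is known to level
`r - w` -/
theorem div_dg_le (t D N : TR W) (r w : ℝ) (hDw : ∀ᶠ k in UF, ∀ ω, (W.F k).μ ω ≠ 0 → W.dl w k < |TR.ev D k ω|)
    (h : TR.Ag r (t * D) N) : TR.dg t (r - w) ≤ TR.dg D r ⊔ TR.dg N r := by
  obtain ⟨A, K, hA, hK, hh⟩ := h
  obtain ⟨M, hM, hM'⟩ := t.2
  apply VV.dg_le_dg2 _ _ _ _ _ _ A hA (fun k => K k + K k + M k + 1)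
    (((hK.add hK).add hM).add (W.Sub_const zero_le_one))
  filter_upwards [hh, hDw, hM', hM.1, hK.1] with k a b c m0 k0 ω ω' h1 h2 e1 e2 _ g1 g2 _
  have d1 : |TR.ev D k ω - TR.ev D k ω'| ≤ W.dl r k := g1 0
  have d2 : |TR.ev N k ω - TR.ev N k ω'| ≤ W.dl r k := g2 0
  have d3 := a ω h1 e1
  have d4 := a ω' h2 e2
  have d5 := b ω h1
  have d6 : |TR.ev t k ω'| ≤ M k := c ω' h2
  rw [TR.ev_mul] at d3 d4
  show |TR.ev t k ω - TR.ev t k ω'| ≤ (K k + K k + M k + 1) * W.dl (r - w) k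
  set t1 := TR.ev t k ω
  set t2 := TR.ev t k ω'
  set D1 := TR.ev D k ω
  set D2 := TR.ev D k ω'
  set N1 := TR.ev N k ω
  set N2 := TR.ev N k ω'
  have e3 : (t1 - t2) * D1 = (t1 * D1 - N1) - (t2 * D2 - N2) + (N1 - N2) - t2 * (D1 - D2) := by ring
  have e4 : |(t1 - t2) * D1| ≤ (K k + K k + M k + 1) * W.dl r k := by
    rw [e3]
    have e5 : |t2 * (D1 - D2)| ≤ M k * W.dl r k := by
      rw [abs_mul]
      exact mul_le_mul d6 d1 (abs_nonneg _) m0
    have e6 := abs_sub ((t1 * D1 - N1) - (t2 * D2 - N2) + (N1 - N2)) (t2 * (D1 - D2))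
    have e7 := abs_add_le ((t1 * D1 - N1) - (t2 * D2 - N2)) (N1 - N2)
    have e8 := abs_sub (t1 * D1 - N1) (t2 * D2 - N2)
    calc _ ≤ K k * W.dl r k + K k * W.dl r k + W.dl r k + M k * W.dl r k := by linarith
      _ = _ := by ring
  rw [abs_mul] at e4
  have hd := W.dl_pos w k
  have e9 : |t1 - t2| * W.dl w k ≤ (K k + K k + M k + 1) * W.dl r k :=
    (mul_le_mul_of_nonneg_left d5.le (abs_nonneg _)).trans e4
  have e10 : W.dl r k = W.dl (r - w) k * W.dl w k := by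
    rw [← dl_add]; congr 1; ring
  rw [e10, ← mul_assoc] at e9
  exact le_of_mul_le_mul_right e9 hd

/-- **One-dimensional lemma, agreement form.** -/
theorem m1_agree (α β t α' β' t' : TR W) (r δ ρ : ℝ) (hδ : 0 < δ) (hδr : δ ≤ r) (hρ : 0 < ρ)
    (hz : TR.Ag r (β + t * α) (β' + t' * α')) (ht : TR.Ag r t t')
    (hTl : h (TR.dg t r) (TR.dg α r ⊔ TR.dg β r) = r) (hTl' : h (TR.dg t r) (TR.dg α' r ⊔ TR.dg β' r) = r)
    (hI : I (TR.dg α r ⊔ TR.dg β r) (TR.dg α' r ⊔ TR.dg β' r) (TR.dg t r ⊔ TR.dg (β + t * α) r) = 0)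
    (hu : ∀ (E : ∀ k, (W.F k).Ω → Prop) (hE : 0 < ul (W.pr E)) (v : ℝ), 0 ≤ v → v ≤ r - δ →
      h (restL E hE (TR.dg (β + t * α) r)) (restL E hE (TR.dg (β + t * α) v) ⊔ restL E hE (TR.dg t r)) ≤
        (1 - ρ) * (r - v)) :
    Typ (fun k ω => |TR.ev (α - α') k ω| ≤ W.dl (r - δ) k) := by
  by_contra hc
  have hε : 0 < ρ * δ / 2 := by positivity
  obtain ⟨v, K, hv0, hvs, hK, hE⟩ := bin (α - α') (r - δ) (ρ * δ / 2) (by linarith) hε hc
  set E : ∀ k, (W.F k).Ω → Prop := fun k ω => W.dl (v + ρ * δ / 2) k < |TR.ev (α - α') k ω| ∧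
    |TR.ev (α - α') k ω| ≤ K k * W.dl v k with hEdef
  have hr0 : 0 ≤ r := by linarith
  have hmem := rest_mem E hE
  -- the functions on the event
  set a := rst E α with ha
  set b := rst E β with hb
  set a' := rst E α' with ha'
  set b' := rst E β' with hb'
  set τ := rst E t with hτ
  set τ' := rst E t' with hτ'
  have hz1 : TR.Ag r (b + τ * a) (b' + τ' * a') := ag_rst E hE hz
  have ht1 : TR.Ag r τ τ' := ag_rst E hE ht
  -- h(t | l) on the event
  have hres : ∀ x : W.L, h (TR.dg t r) x = r → h (restL E hE (TR.dg t r)) (restL E hE x) = r := by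
    intro x hx
    have u1 : ∀ (F : ∀ k, (W.F k).Ω → Prop) (hF : 0 < ul (W.pr F)), h (restL F hF (TR.dg t r)) (restL F hF x) ≤ r := by
      intro F hF
      refine (h_le_H _ _).trans ?_
      rw [← rst_dg F hF]
      have := (TR.vec (fun _ : Fin 1 => rst F t)).H_dg_le hr0
      simp only [Nat.cast_one, one_mul] at this
      exact this
    rcases typ_or E with hty | hE'
    · have := h_restL_typ E hty (TR.dg t r) x
      exact this.trans hx
    · have h1 := h_split E hE hE' (TR.dg t r) x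
      rw [hx] at h1
      have h2 := u1 E hE
      have h3 := mul_le_mul_of_nonneg_left (u1 _ hE') (sub_nonneg.mpr (ul_pr_le_one E))
      have h4 : ul (W.pr E) * (r - h (restL E hE (TR.dg t r)) (restL E hE x)) ≤ 0 := by
        rw [mul_sub]; linarith
      have h5 : r - h (restL E hE (TR.dg t r)) (restL E hE x) ≤ 0 := by
        by_contra hcc
        have := mul_pos hE (not_le.mp hcc)
        linarith
      linarith
  have k1 := hres _ hTl
  have k2 := hres _ hTl'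
  have k3 := I_rest_zero E hE hI
  have k4 := hu E hE v hv0 hvs
  rw [restL_sup, ← rst_dg, ← rst_dg, ← rst_dg] at k1 k2
  rw [restL_sup, restL_sup, restL_sup, ← rst_dg, ← rst_dg, ← rst_dg, ← rst_dg, ← rst_dg, ← rst_dg] at k3
  rw [← rst_dg, ← rst_dg, ← rst_dg] at k4
  have ez : rst E (β + t * α) = b + τ * a := rfl
  rw [ez] at k3 k4
  rw [← ha, ← hb, ← hτ] at k1
  rw [← ha', ← hb', ← hτ] at k2
  rw [← ha, ← hb, ← hτ, ← ha', ← hb'] at k3
  rw [← hτ] at k4
  -- `α` and `α'`, `β` and `β'` agree up to level `v`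
  have dlr : ∀ s k, (W.rest E).dl s k = W.dl s k := fun _ _ => rfl
  have g1 : TR.Ag v a a' := by
    refine ⟨fun _ _ => True, K, Typ_true, hK, ?_⟩
    filter_upwards [hmem] with k hk ω hω _
    exact (hk ω hω).2.2
  have hvr : v ≤ r := by linarith
  have g2 : TR.Ag v b b' := by
    have h1 : TR.Ag v (b + τ * a) (b' + τ' * a') := hz1.anti hvr
    have h2 : TR.Ag v (τ * a) (τ' * a') := (ht1.anti hvr).mul g1
    have h3 := h1.sub h2
    rwa [add_sub_cancel_right, add_sub_cancel_right] at h3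
  -- the height is known up to level `r - v - ε`
  have g3 : TR.Ag r (τ * (a - a')) (b' - b) := by
    have h1 : TR.Ag r (τ * a') (τ' * a') := ht1.mul (TR.Ag.refl r a')
    have h2 := (hz1.sub h1).sub (TR.Ag.refl r b)
    have e1 : b + τ * a - τ * a' - b = τ * (a - a') := by ring
    have e2 : b' + τ' * a' - τ' * a' - b = b' - b := by ring
    rwa [e1, e2] at h2
  have g4 : TR.dg τ (r - (v + ρ * δ / 2)) ≤ TR.dg (a - a') r ⊔ TR.dg (b' - b) r := by
    apply div_dg_le τ (a - a') (b' - b) r (v + ρ * δ / 2) _ g3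
    filter_upwards [hmem] with k hk ω hω
    exact (hk ω hω).2.1
  have g5 : TR.dg τ (r - (v + ρ * δ / 2)) ≤ (TR.dg a r ⊔ TR.dg b r) ⊔ (TR.dg a' r ⊔ TR.dg b' r) := by
    refine g4.trans (sup_le ?_ ?_)
    · rw [← TR.mem_Kn]
      exact Subring.sub_mem _ (TR.mem_Kn.mpr (le_sup_left.trans le_sup_left))
        (TR.mem_Kn.mpr (le_sup_left.trans le_sup_right))
    · rw [← TR.mem_Kn]
      exact Subring.sub_mem _ (TR.mem_Kn.mpr (le_sup_right.trans le_sup_right))
        (TR.mem_Kn.mpr (le_sup_right.trans le_sup_left))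
  have g6 : ∀ (x y u : TR (W.rest E)) (s : ℝ), TR.dg (y + u * x) s ≤ (TR.dg x s ⊔ TR.dg y s) ⊔ TR.dg u s := by
    intro x y u s
    rw [← TR.mem_Kn]
    exact Subring.add_mem _ (TR.mem_Kn.mpr (le_sup_right.trans le_sup_left))
      (Subring.mul_mem _ (TR.mem_Kn.mpr le_sup_right) (TR.mem_Kn.mpr (le_sup_left.trans le_sup_left)))
  have k5 : h (TR.dg τ r) (TR.dg τ (r - (v + ρ * δ / 2))) ≤ v + ρ * δ / 2 := by
    have h1 := (TR.vec (fun _ : Fin 1 => τ)).h_dg_dg (show r - (v + ρ * δ / 2) ≤ r by linarith)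
    simp only [Nat.cast_one, one_mul] at h1
    have h2 : r - (r - (v + ρ * δ / 2)) = v + ρ * δ / 2 := by ring
    rw [h2] at h1
    exact h1
  have k6 : H (TR.dg τ r) ≤ r := by
    have := (TR.vec (fun _ : Fin 1 => τ)).H_dg_le hr0
    simp only [Nat.cast_one, one_mul] at this
    exact this
  have key := m1_abs (TR.dg a r ⊔ TR.dg b r) (TR.dg a' r ⊔ TR.dg b' r) (TR.dg τ r) (TR.dg (b + τ * a) r)
    (TR.dg a' v ⊔ TR.dg b' v) (TR.dg (b + τ * a) v) (TR.dg τ (r - (v + ρ * δ / 2))) r (v + ρ * δ / 2)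
    k6 k1 k2 k3 (g6 a b τ r)
    (by
      rw [hz1.dg_eq le_rfl, ht1.dg_eq le_rfl]
      exact g6 a' b' τ' r)
    (by
      rw [← g1.dg_eq le_rfl, ← g2.dg_eq le_rfl]
      exact sup_le_sup (TR.dg_mono a hvr) (TR.dg_mono b hvr))
    (sup_le_sup (TR.dg_mono a' hvr) (TR.dg_mono b' hvr))
    (by
      rw [hz1.dg_eq hvr]
      refine (g6 a' b' τ' v).trans (sup_le_sup le_rfl ?_)
      rw [← ht1.dg_eq hvr]
      exact TR.dg_mono τ hvr)
    g5 k5
  have k7 : h (TR.dg (b + τ * a) r) (TR.dg τ r) =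
      h (TR.dg (b + τ * a) v) (TR.dg τ r) + h (TR.dg (b + τ * a) r) (TR.dg (b + τ * a) v ⊔ TR.dg τ r) := by
    have h1 := h_chain (TR.dg (b + τ * a) v) (TR.dg (b + τ * a) r) (TR.dg τ r)
    rwa [sup_eq_right.mpr (TR.dg_mono (b + τ * a) hvr)] at h1
  rw [k7] at key
  have k8 : ρ * (r - v) ≤ ρ * δ / 2 := by linarith
  have k9 : ρ * δ ≤ ρ * (r - v) := mul_le_mul_of_nonneg_left (by linarith) hρ.le
  have k10 : 0 < ρ * δ := by positivity
  linarith

end

end Pool.Agent.Helper25.EC
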